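import Pool.Agent.R461.GC.G6

set_option autoImplicit false

open MeasureTheory Filter Topology

namespace Pool.Agent.Results.MP_fb29e9_nt.FractalRadii

open Pool.Agent.R461.GC
open Pool.Agent.H383.Gauss (En F rA)
open Pool.Agent.H383.Circ (ag rA_card)

/-- **The circle problem at fractal radii.** Let `P(R) = #{p ∈ ℤ² : |p| ≤ R} - πR²`.

(1) There is a law `ν` (the one of Heath-Brown and Bleher) with an entire density, full support, mean `0` and variance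
`∑ r(m)² / (2π² m^{3/2})` such that, for all `0 < c₁ < c₂`, `K` and `s > 1/3`, uniformly over all probability measures `μ` on
`[c₁, c₂]` with `|μ^(t)| ≤ K |t|^{-s}` for `T^{1/10} ≤ |t| ≤ T²`, the law of `P(Tξ)/√(Tξ)`, `ξ` distributed according to `μ`,
tends to `ν` as `T → ∞`, in the sense that the expectations of all continuous `f` of at most quadratic growth converge.

(2) So, if `|μ^(t)| ≤ K |t|^{-s}` for all `|t| ≥ 1`, then for `μ`-almost every `x` the conjectured bound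
`|P(R)| ≤ R^{1/2 + ε}` holds for all large `k` at `R = T_k x`, for every sequence of dilations with `∑ T_k^{-2ε} < ∞`. -/
theorem result (P : ℝ → ℝ)
    (hP : ∀ R : ℝ, P R = (Nat.card {p : ℤ × ℤ // (p.1 : ℝ) ^ 2 + (p.2 : ℝ) ^ 2 ≤ R ^ 2} : ℝ) - Real.pi * R ^ 2)
    (r : ℕ → ℕ) (hr : ∀ m : ℕ, r m = Nat.card {p : ℤ × ℤ // p.1 ^ 2 + p.2 ^ 2 = (m : ℤ)}) :
    (∃ (ν : ProbabilityMeasure ℝ) (G : ℂ → ℂ),
      Differentiable ℂ G ∧ (∀ x : ℝ, 0 ≤ (G x).re ∧ (G x).im = 0) ∧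
      (ν : Measure ℝ) = volume.withDensity (fun x : ℝ => ENNReal.ofReal (G x).re) ∧
      (∀ u v : ℝ, u < v → 0 < (ν : Measure ℝ) (Set.Ioo u v)) ∧
      Integrable (fun x : ℝ => x ^ 2) (ν : Measure ℝ) ∧
      ∫ x, x ∂(ν : Measure ℝ) = 0 ∧
      HasSum (fun m : ℕ => (r m : ℝ) ^ 2 / (2 * Real.pi ^ 2) * (m : ℝ) ^ (-(3 / 2) : ℝ)) (∫ x, x ^ 2 ∂(ν : Measure ℝ)) ∧
      ∀ c₁ c₂ K s : ℝ, 0 < c₁ → 1 / 3 < s →
        ∀ f : ℝ → ℝ, Continuous f → (∃ C : ℝ, ∀ x, |f x| ≤ C * (1 + x ^ 2)) → ∀ η : ℝ, 0 < η →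
        ∃ T₀ : ℝ, ∀ T, T₀ ≤ T → ∀ μ : Measure ℝ, IsProbabilityMeasure μ → (∀ᵐ x ∂μ, c₁ ≤ x ∧ x ≤ c₂) →
          (∀ t : ℝ, T ^ (1 / 10 : ℝ) ≤ |t| → |t| ≤ T ^ 2 →
            ‖∫ x, Complex.exp (((t * x : ℝ) : ℂ) * Complex.I) ∂μ‖ ≤ K * |t| ^ (-s)) →
          |∫ x, f (P (T * x) / √(T * x)) ∂μ - ∫ x, f x ∂(ν : Measure ℝ)| ≤ η) ∧
    (∀ c₁ c₂ K s : ℝ, 0 < c₁ → 1 / 3 < s → ∀ μ : Measure ℝ, IsProbabilityMeasure μ → (∀ᵐ x ∂μ, c₁ ≤ x ∧ x ≤ c₂) →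
      (∀ t : ℝ, 1 ≤ |t| → ‖∫ x, Complex.exp (((t * x : ℝ) : ℂ) * Complex.I) ∂μ‖ ≤ K * |t| ^ (-s)) →
      ∀ ε : ℝ, 0 < ε → ∀ T : ℕ → ℝ, (∀ k, 0 < T k) → Summable (fun k => (T k) ^ (-(2 * ε))) →
        ∀ᵐ x ∂μ, ∀ᶠ k in atTop, |P (T k * x)| ≤ (T k * x) ^ (1 / 2 + ε)) := by
  have hPE : ∀ R : ℝ, P R / √R = En R := by
    intro R
    rw [hP]
    rfl
  have hPF : ∀ R : ℝ, P R = F R - Real.pi * R ^ 2 := fun R => hP R
  obtain ⟨ν, G, h1, h2, h3, h4, h5, h6, h7, h8⟩ := fractal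
  constructor
  · refine ⟨ν, G, h1, h2, h3, h4, h5, h6, ?_, ?_⟩
    · convert h7 using 1
      funext m
      rcases Nat.eq_zero_or_pos m with rfl | hm
      · rw [if_neg (by norm_num), Nat.cast_zero, Real.zero_rpow (by norm_num), mul_zero]
      · have hm0 : (0 : ℝ) < m := by exact_mod_cast hm
        rw [if_pos (by omega)]
        unfold ag
        rw [rA_card, ← hr, mul_pow, ← Real.rpow_natCast (√(m : ℝ) ^ (-(3 / 2) : ℝ)), ← Real.rpow_mul (Real.sqrt_nonneg _), Real.sqrt_eq_rpow,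
          ← Real.rpow_mul hm0.le]
        norm_num
        have := Real.pi_ne_zero
        field_simp
    · intro c₁ c₂ K s hc₁ hs f hf hC η hη
      obtain ⟨T₀, hT₀⟩ := h8 c₁ c₂ K s hc₁ hs f hf hC η hη
      refine ⟨T₀, fun T hT μ hμ hsupp hdec => ?_⟩
      have h9 := hT₀ T hT μ ⟨hμ, hsupp, hdec⟩
      simp only [hPE]
      exact h9
  · intro c₁ c₂ K s hc₁ hs μ hμ hsupp hdec ε hε T hT hsum
    obtain ⟨T₀, hT₀⟩ := h8 c₁ c₂ K s hc₁ hs (fun x => x ^ 2) (by fun_prop) ⟨1, fun x => by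
      rw [abs_of_nonneg (sq_nonneg x)]
      linarith⟩ 1 one_pos
    have h9 : ∀ T, max T₀ 1 ≤ T → ∫ x, (En (T * x)) ^ 2 ∂μ ≤ ∫ x, x ^ 2 ∂(ν : Measure ℝ) + 1 := by
      intro T hT
      have h10 := hT₀ T (le_trans (le_max_left _ _) hT) μ ⟨hμ, hsupp, fun t ht _ => hdec t
        (le_trans (Real.one_le_rpow (le_trans (le_max_right _ _) hT) (by norm_num)) ht)⟩
      have h11 := (abs_le.1 h10).2
      linarith
    have h12 := ae_bound hc₁ μ hsupp (max T₀ 1) h9 hε T hT hsum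
    simp only [hPF]
    exact h12

end Pool.Agent.Results.MP_fb29e9_nt.FractalRadii
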