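import Pool.Agent.R306.GP.CircIID

/-!
# The error term of the circle problem along powers behaves like independent random variables

`P(R)` is the error term of the circle problem and `Z(R) = P(R) / √R`.  There is a probability measure `μ` on `ℝ`
without atoms and with full support, the limit law of `Z(R)` in all windows `[R, R + H]` with `R ^ (3/4) ≤ H ≤ R`,
such that the following holds.  Let `a_n` be real with `a_{n+1} ≥ a_n + δ`, `δ > 0`, let `b_n > 0` be nondecreasing
and `R_n = b_n α ^ (a_n)`.  Then for almost all `α > 1` and all `k` the vectors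
`(Z(R_n), Z(R_n α), …, Z(R_n α ^ (k-1)))` have the limit law `μ ⊗ … ⊗ μ` with respect to the natural density of `n`:
the averages of `f` at these vectors tend to the integral of `f` for all continuous functions `f` of polynomial growth
(in particular all mixed moments converge), and the joint frequencies tend to the products of the values of the
distribution function of `μ`; moreover `|P(R_n)| ≤ n ^ ε √R_n` for all large `n`, for every `ε > 0`.  So for almost all `α > 1` the sequence `P(α ^ n) / α ^ (n/2)` has the statistics of a
sequence of independent random variables with law `μ`.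

Proof.  Let `U_M` be the truncation at frequencies `≤ M²` of the trigonometric series of `Z`.
For `y = log α` in a compact interval the differences `Z(R_n) - U_M(R_n)` are small in mean square if `M` is a small
power of `R_n`; with `M = (n+1)^400` the sum over `n` of the squares converges almost everywhere.  The even moments of
the differences of two model polynomials are bounded by means of van der Corput's lemma on the derivative for
differences of phases `b_n exp(a_n y) ω - b_m exp(a_m y) ω'`, whose derivative is large by the growth of `R_n`, and so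
the averages over dyadic blocks converge almost everywhere.  For a fixed model polynomial the mixed moments are sums
of Weyl sums `∑ e(R_n Q(α))` with polynomials `Q` whose coefficients are sums of square roots, which are `o(N)` for almost all
`α` if `Q ≠ 0`, and the terms with `Q = 0` factor.
-/

set_option autoImplicit false

open MeasureTheory Filter Topology Set

namespace Pool.Agent.Results.MP_fb29e9_nt.IndependenceAlongPowers

/-- the error term of the circle problem -/
noncomputable def P (R : ℝ) : ℝ :=
  (Nat.card {p : ℤ × ℤ // (p.1 : ℝ) ^ 2 + (p.2 : ℝ) ^ 2 ≤ R ^ 2} : ℝ) - Real.pi * R ^ 2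

/-- the normalized error term -/
noncomputable def Z (R : ℝ) : ℝ := P R / √R

theorem result : ∃ μ : ProbabilityMeasure ℝ, (∀ x : ℝ, (μ : Measure ℝ) {x} = 0) ∧
    (∀ u v : ℝ, u < v → 0 < (μ : Measure ℝ) (Ioo u v)) ∧
    -- the law in windows
    (∀ x η : ℝ, 0 < η → ∃ R₀ : ℝ, ∀ R : ℝ, R₀ ≤ R → ∀ H : ℝ, R ^ (3 / 4 : ℝ) ≤ H → H ≤ R →
      |volume.real {r : ℝ | R < r ∧ r ≤ R + H ∧ P r ≤ x * √r} - (μ : Measure ℝ).real (Iic x) * H| ≤
        η * H) ∧
    -- almost all sequences
    ∀ (a b : ℕ → ℝ) (δ : ℝ), 0 < δ → (∀ n, a n + δ ≤ a (n + 1)) → (∀ n, 0 < b n) → Monotone b →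
      ∀ᵐ α : ℝ, 1 < α →
        -- averages of all continuous functions of polynomial growth
        (∀ (k : ℕ) (f : (Fin k → ℝ) → ℝ), Continuous f →
          (∃ (C : ℝ) (p : ℕ), ∀ x, |f x| ≤ C * (1 + ‖x‖ ^ p)) →
          Integrable f (Measure.pi fun _ : Fin k => (μ : Measure ℝ)) ∧
          Tendsto (fun N : ℕ => (∑ n ∈ Finset.range N,
              f (fun j => Z (b n * α ^ (a n) * α ^ (j : ℕ)))) / (N : ℝ)) atTop
            (𝓝 (∫ x, f x ∂(Measure.pi fun _ : Fin k => (μ : Measure ℝ))))) ∧
        -- joint frequencies
        (∀ (k : ℕ) (u : Fin k → ℝ), Tendsto (fun N : ℕ =>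
            (((Finset.range N).filter fun n => ∀ j : Fin k,
              Z (b n * α ^ (a n) * α ^ (j : ℕ)) ≤ u j).card : ℝ) / N) atTop
          (𝓝 (∏ j, (μ : Measure ℝ).real (Iic (u j))))) ∧
        -- size
        ∀ ε : ℝ, 0 < ε → ∀ᶠ n : ℕ in atTop, |P (b n * α ^ (a n))| ≤ (n : ℝ) ^ ε * √(b n * α ^ (a n)) :=
  Pool.Agent.R306.Circ.iidMain

end Pool.Agent.Results.MP_fb29e9_nt.IndependenceAlongPowers
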