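import Pool.Agent.R306.CircLawFin

/-!
# The limit law of the circle problem along almost all sequences `b_n α ^ (a_n)`

`P(R)` is the error term of the circle problem.  There is a probability measure `μ` on `ℝ` without atoms
and with full support such that `P(R) / √R` has the distribution `μ` in all windows `[R, R + H]` with
`R ^ (3/4) ≤ H ≤ R`, and such that the same law is found along almost all sequences of powers: let
`a_n ≥ 1` and `b_n ≥ 1` be real numbers such that `s_n = a_n + log b_n` is nondecreasing, tends to infinity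
and `s_{n+1} / s_n` is bounded.  Then for almost all `α > 1` the numbers `P(R_n) / √R_n`, `R_n = b_n α ^ (a_n)`,
with the weights `log (s_{n+1} / s_n)`, have the limit law `μ`.

For `R_n = α ^ (n + 1)` or `R_n = α exp(n)` the weights are `log (1 + 1 / (n + 1))`, and so this is the limit
law with respect to the logarithmic density of `n`; for `a_n = 2 ^ n`, `b_n = 1` all weights are equal, and it is
the limit law with respect to the natural density.

Proof.  With `y = log α`, the function `g` of `R_n` (a Lipschitz function of `P(R_n) / √R_n` minus its mean)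
is the sum of its average over the window `[y, y + δ_n]`, `δ_n = exp(-κ s_n)`, which tends to zero uniformly
by the law in windows, and of a function `D_n`.  The functions `D_n` and `D_m` are almost orthogonal if
`s_m` is larger than a constant times `s_n`, since `D_m` has mean zero at the scale `δ_m`, while the variation
of `D_n` is at most `exp(C s_n)`.  So the second moment of `∑ w_n D_n` over an interval of parameters is
`O(∑ w_n)`, and almost everywhere convergence follows.
-/

set_option autoImplicit false

open MeasureTheory Filter Topology Set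

namespace Pool.Agent.Results.MP_fb29e9_nt.LawAlongAlmostAllPowers

/-- the error term of the circle problem -/
noncomputable def P (R : ℝ) : ℝ :=
  (Nat.card {p : ℤ × ℤ // (p.1 : ℝ) ^ 2 + (p.2 : ℝ) ^ 2 ≤ R ^ 2} : ℝ) - Real.pi * R ^ 2

/-- the weight `log (s_{n+1} / s_n)`, where `s_n = a_n + log b_n` -/
noncomputable def w (a b : ℕ → ℝ) (n : ℕ) : ℝ :=
  Real.log (a (n + 1) + Real.log (b (n + 1))) - Real.log (a n + Real.log (b n))

open Classical in
theorem result : ∃ μ : ProbabilityMeasure ℝ, (∀ x : ℝ, (μ : Measure ℝ) {x} = 0) ∧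
    (∀ u v : ℝ, u < v → 0 < (μ : Measure ℝ) (Ioo u v)) ∧
    -- the law in windows
    (∀ x η : ℝ, 0 < η → ∃ R₀ : ℝ, ∀ R : ℝ, R₀ ≤ R → ∀ H : ℝ, R ^ (3 / 4 : ℝ) ≤ H → H ≤ R →
      |volume.real {r : ℝ | R < r ∧ r ≤ R + H ∧ P r ≤ x * √r} - (μ : Measure ℝ).real (Iic x) * H| ≤
        η * H) ∧
    -- the law along almost all sequences
    ∀ a b : ℕ → ℝ, (∀ n, 1 ≤ a n) → (∀ n, 1 ≤ b n) → Monotone (fun n => a n + Real.log (b n)) →
      Tendsto (fun n => a n + Real.log (b n)) atTop atTop →
      (∃ C : ℝ, ∀ n, a (n + 1) + Real.log (b (n + 1)) ≤ C * (a n + Real.log (b n))) →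
      ∀ᵐ α : ℝ, 1 < α → ∀ x : ℝ,
        Tendsto (fun N => (∑ n ∈ Finset.range N,
            if P (b n * α ^ (a n)) ≤ x * √(b n * α ^ (a n)) then w a b n else 0) /
          ∑ n ∈ Finset.range N, w a b n) atTop (𝓝 ((μ : Measure ℝ).real (Iic x))) :=
  Pool.Agent.R306.Circ.lawMain

end Pool.Agent.Results.MP_fb29e9_nt.LawAlongAlmostAllPowers
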