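import Pool.Agent.R306.CircFin

/-!
# The circle problem along `b_n α ^ (a_n)`: measure, dimension and category

`P(R)` is the error term of the circle problem.  Let `a_n ≥ 1`, `b_n > 0` be real numbers with
`a_{n+1} / a_n → 1` and `(log b_{n+1} - log b_n) / a_n → 0`, such that the radii `R_n(α) = b_n α ^ (a_n)`
tend to infinity for all `α > α₀`.  Examples are `α ^ n`, `α ^ (√n)`, `α exp(√n)` (with `α₀ = 1, 1, 0`).

* For almost all `α > α₀` the numbers `P(R_n) / √R_n` are unbounded above and below; if `log n = o(log R_n)`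
  they are `O(R_n ^ ε)` for every `ε > 0`, and the exceptional set belonging to `ε` has Hausdorff dimension
  at most `1 - c ε log (1/ε)`.  So the exponent of the circle problem along `R_n(α)` is `1/2`.
* For all `α` outside a meagre set the sequence `R_n(α)` sees all of `P`: for every continuous function
  `φ`, if `P(R) > φ(R)` for arbitrarily large `R`, then this holds for infinitely many `R_n(α)`; the same
  for `P(R) < φ(R)`.
* So the conjecture of the circle problem holds if and only if the set of the `α` for which the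
  conjectured bound holds along `R_n(α)` (a set of full measure) is not meagre.

Proof.  The exceptional set is covered by the preimages of the unit intervals of the squared radius that
contain a large value; these are few by the starting result `ExceptionalSets`.  Large values of both signs
have a positive frequency in every window `[R, (1 + δ) R]` by the limit laws along `(n + β) ^ 2` of the
starting result `Distribution` and dominated convergence in `β`, and then Lebesgue's density theorem is
used.  As the number of lattice points is a nondecreasing function of the radius, `P(R) > φ(R)` persists on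
a one-sided neighbourhood, and every open set of parameters is mapped by some `R_n` onto a set that
contains any given large radius; then Baire's theorem is used.
-/

set_option autoImplicit false

open MeasureTheory Filter Topology Set

namespace Pool.Agent.Results.MP_fb29e9_nt.MeasureAndCategory

/-- the error term of the circle problem -/
noncomputable def P (R : ℝ) : ℝ :=
  (Nat.card {p : ℤ × ℤ // (p.1 : ℝ) ^ 2 + (p.2 : ℝ) ^ 2 ≤ R ^ 2} : ℝ) - Real.pi * R ^ 2

theorem result : ∃ c : ℝ, 0 < c ∧ ∀ (a b : ℕ → ℝ) (α₀ : ℝ), 0 ≤ α₀ → (∀ n, 1 ≤ a n) → (∀ n, 0 < b n) →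
    Tendsto (fun n => a (n + 1) / a n) atTop (𝓝 1) →
    Tendsto (fun n => (Real.log (b (n + 1)) - Real.log (b n)) / a n) atTop (𝓝 0) →
    (∀ α : ℝ, α₀ < α → Tendsto (fun n => b n * α ^ (a n)) atTop atTop) →
    -- almost all parameters
    (∀ᵐ α : ℝ, α₀ < α → ∀ V : ℝ, (∃ᶠ n in atTop, V * √(b n * α ^ (a n)) < P (b n * α ^ (a n))) ∧
      ∃ᶠ n in atTop, P (b n * α ^ (a n)) < -(V * √(b n * α ^ (a n)))) ∧
    ((∀ α : ℝ, α₀ < α → Tendsto (fun n : ℕ => Real.log (b n * α ^ (a n)) / Real.log n) atTop atTop) →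
      (∀ᵐ α : ℝ, α₀ < α → ∀ ε : ℝ, 0 < ε →
        ∀ᶠ n in atTop, |P (b n * α ^ (a n))| ≤ (b n * α ^ (a n)) ^ (1 / 2 + ε)) ∧
      ∀ ε : ℝ, 0 < ε → ε ≤ c →
        dimH {α : ℝ | α₀ < α ∧
          ∃ᶠ n in atTop, (b n * α ^ (a n)) ^ (1 / 2 + ε) < |P (b n * α ^ (a n))|} ≤
          ENNReal.ofReal (1 - c * (ε * Real.log (1 / ε)))) ∧
    -- parameters outside a meagre set
    (∀ φ : ℝ → ℝ, ContinuousOn φ (Ioi 0) →
      ((∃ᶠ R in atTop, φ R < P R) →
        ∀ᶠ α in residual ℝ, α₀ < α → ∃ᶠ n in atTop, φ (b n * α ^ (a n)) < P (b n * α ^ (a n))) ∧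
      ((∃ᶠ R in atTop, P R < φ R) →
        ∀ᶠ α in residual ℝ, α₀ < α → ∃ᶠ n in atTop, P (b n * α ^ (a n)) < φ (b n * α ^ (a n)))) ∧
    -- the criterion
    ((∀ ε : ℝ, 0 < ε → ∃ C R₀ : ℝ, ∀ R : ℝ, R₀ ≤ R → |P R| ≤ C * R ^ (1 / 2 + ε)) ↔
      ¬ IsMeagre {α : ℝ | α₀ < α ∧ ∀ ε : ℝ, 0 < ε →
        ∀ᶠ n in atTop, |P (b n * α ^ (a n))| ≤ (b n * α ^ (a n)) ^ (1 / 2 + ε)}) :=
  Pool.Agent.R306.Circ.main

end Pool.Agent.Results.MP_fb29e9_nt.MeasureAndCategory
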